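import Mathlib
import Pool.Agent.Work.MP_18db2a_co.Stmt

/-!
Every proper colouring of the triples of an `m`-set with `(n-1 choose 2)` colours extends to the triples of an `n`-set, where
`n` is the least multiple of `3` above `2 m`, for all large `m`.
-/

namespace Pool.Agent.Results.MP_18db2a_co.ThreeUniformLarge

open Pool.Agent.Work.MP_18db2a_co

/-- For all sufficiently large `m`: if `n` is the least multiple of `3` which is greater than `2 m`, then every proper colouring `c` of
`K_m^3` with `k = (n-1 choose 2)` colours extends to a proper colouring of `K_n^3` with the same `k` colours. -/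
theorem result : ∃ m₀ : ℕ, ∀ m : ℕ, m₀ ≤ m → ∀ n : ℕ, IsLeast {p : ℕ | 2 * m < p ∧ 3 ∣ p} n → ∀ hmn : m ≤ n,
    ∀ c : KEdge 3 (Fin m) → Fin ((n - 1).choose 2), IsProper c →
      ∃ c' : KEdge 3 (Fin n) → Fin ((n - 1).choose 2), IsProper c' ∧ Extends hmn c c' :=
  stmt

end Pool.Agent.Results.MP_18db2a_co.ThreeUniformLarge
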